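import Pool.Agent.Helper18.ShghFinal

/-- The dimension formula of the conjecture for general points of the plane, for all reduced
systems with `6 d > 2 (m 0 + ... + m 8) + sum of m i over i ≥ 9 with m i ≥ 2` (with one more unit
for each `i ≥ 9` with `m i = m 1` in the boundary case `m 0 + m 1 + m 2 = d`). -/
theorem Pool.Agent.Helper18.Old.HalphenRange.result :
    ∀ (s : ℕ) (m : ℕ → ℕ) (d : ℕ), Antitone m → (∀ i, s ≤ i → m i = 0) →
      m 0 + m 1 + m 2 ≤ d →
      2 * ∑ i ∈ Finset.range 9, m i +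
        ∑ i ∈ (Finset.Ico 9 s).filter (fun i => 2 ≤ m i),
          (m i + if m 0 + m 1 + m 2 = d ∧ m i = m 1 then 1 else 0) < 6 * d →
      ∃ G : MvPolynomial (Fin s × Fin 3) ℂ, G ≠ 0 ∧
        ∀ P : Fin s → Fin 3 → ℂ, (∀ i, P i ≠ 0) →
          MvPolynomial.eval (fun ij : Fin s × Fin 3 => P ij.1 ij.2) G ≠ 0 →
          (Module.finrank ℂ
            (↥(MvPolynomial.homogeneousSubmodule (Fin 3) ℂ d ⊓
              ⨅ i : Fin s, Submodule.restrictScalars ℂ
                ((Ideal.span {g : MvPolynomial (Fin 3) ℂ |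
                    g.IsHomogeneous 1 ∧ MvPolynomial.eval (P i) g = 0}) ^ (m (i : ℕ))
                  : Ideal (MvPolynomial (Fin 3) ℂ)))) : ℤ)
            = max ((Nat.choose (d + 2) 2 : ℤ) -
                ∑ i : Fin s, (Nat.choose (m (i : ℕ) + 1) 2 : ℤ)) 0 := by
  intro s m d hm hs hd hsum
  exact Helper18.Shgh.final s m d hm hs hd hsum
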