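import Mathlib
import Pool.Agent.Helper43.Nod.Final

/-!
Every reduced plane linear system `L(d; m_1, ..., m_s)` whose degree is large in terms of the
tenth multiplicity is non-special; the nine largest multiplicities are arbitrary.
-/

theorem Pool.Agent.Helper18.Old.NineFree.result :
    ∀ (s : ℕ) (m : ℕ → ℕ) (d : ℕ), Antitone m → (∀ i, s ≤ i → m i = 0) →
      m 0 + m 1 + m 2 ≤ d →
      (1000 * m 9) ^ (2 ^ 39) ≤ d →
      ∃ G : MvPolynomial (Fin s × Fin 3) ℂ, G ≠ 0 ∧
        ∀ P : Fin s → Fin 3 → ℂ, (∀ i, P i ≠ 0) →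
          MvPolynomial.eval (fun ij : Fin s × Fin 3 => P ij.1 ij.2) G ≠ 0 →
          (Module.finrank ℂ
            (↥(MvPolynomial.homogeneousSubmodule (Fin 3) ℂ d ⊓
              ⨅ i : Fin s, Submodule.restrictScalars ℂ
                ((Ideal.span {g : MvPolynomial (Fin 3) ℂ |
                    g.IsHomogeneous 1 ∧ MvPolynomial.eval (P i) g = 0}) ^ (m (i : ℕ))
                  : Ideal (MvPolynomial (Fin 3) ℂ)))) : ℤ)
            = max ((Nat.choose (d + 2) 2 : ℤ) -
                ∑ i : Fin s, (Nat.choose (m (i : ℕ) + 1) 2 : ℤ)) 0 := by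
  intro s m d hm hs hd hN
  exact Helper18.Slab.main_all Pool.Agent.Helper43.Nod.hex hm hs hd hN
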